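import Pool.Agent.H67.AG.T1

/-!
ABSOLUTE GAP (`MP_c59857_nt`), row J3: invariance of the relatively independent self-joining.
-/

set_option autoImplicit false

open MeasureTheory ProbabilityTheory Filter Topology Finset
open scoped Nat ENNReal

namespace Pool.Agent.H91.AG

open Pool.Agent.H67.AG

section alg

variable {X : Type} [mX : MeasurableSpace X] [MeasurableSpace.CountablyGenerated X]

/-- countable algebra generating the σ-algebra -/
def AlgX (X : Type) [MeasurableSpace X] [MeasurableSpace.CountablyGenerated X] : Set (Set X) :=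
  generateSetAlgebra (MeasurableSpace.countableGeneratingSet X)

lemma algX_countable : (AlgX X).Countable :=
  countable_generateSetAlgebra MeasurableSpace.countable_countableGeneratingSet

lemma algX_gen : mX = MeasurableSpace.generateFrom (AlgX X) := by
  unfold AlgX
  rw [generateFrom_generateSetAlgebra_eq, MeasurableSpace.generateFrom_countableGeneratingSet]

lemma algX_meas {B : Set X} (hB : B ∈ AlgX X) : MeasurableSet B := by
  rw [algX_gen (X := X)]
  exact MeasurableSpace.measurableSet_generateFrom hB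

lemma algX_pi : IsPiSystem (AlgX X) := by
  intro s hs t ht _
  exact isSetAlgebra_generateSetAlgebra.inter_mem hs ht

end alg

variable {X : Type} [mX : MeasurableSpace X] [StandardBorelSpace X]

lemma kap_apply' (μ : Measure X) [IsFiniteMeasure μ] (Z : SA X) (x : X) :
    kap μ Z x = condExpKernel μ Z.1 x := by
  unfold kap
  rw [Kernel.comap_apply]
  rfl

omit [StandardBorelSpace X] in
lemma meas_of_invZ {T : X ≃ᵐ X} {Z : SA X} (hZ : InvZ T Z) :
    @Measurable X X Z.1 Z.1 T := fun A hA => (hZ A hA).1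

lemma condExp_comp (μ : Measure X) [IsProbabilityMeasure μ] (T : X ≃ᵐ X) (Z : SA X)
    (hT : MeasurePreserving T μ μ) (hZ : InvZ T Z) (F : X → ℝ) (hF : Integrable F μ) :
    (fun x => (μ[F | Z.1]) (T x)) =ᵐ[μ] μ[fun x => F (T x) | Z.1] := by
  have hFT : Integrable (fun x => F (T x)) μ := hT.integrable_comp_of_integrable hF
  refine ae_eq_condExp_of_forall_setIntegral_eq Z.2 hFT ?_ ?_ ?_
  · intro s _ _
    exact (hT.integrable_comp_of_integrable integrable_condExp).integrableOn
  · intro s hs _
    have ht : MeasurableSet[Z.1] (T.symm ⁻¹' s) := (hZ s hs).2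
    have hst : s = T ⁻¹' (T.symm ⁻¹' s) := by
      ext x
      simp
    have h1 : ∫ x in T ⁻¹' (T.symm ⁻¹' s), (μ[F | Z.1]) (T x) ∂μ
        = ∫ y in T.symm ⁻¹' s, (μ[F | Z.1]) y ∂μ :=
      hT.setIntegral_preimage_emb T.measurableEmbedding _ _
    have h2 : ∫ x in T ⁻¹' (T.symm ⁻¹' s), F (T x) ∂μ = ∫ y in T.symm ⁻¹' s, F y ∂μ :=
      hT.setIntegral_preimage_emb T.measurableEmbedding _ _
    rw [← hst] at h1 h2
    rw [h1, h2, setIntegral_condExp Z.2 hF ht]
  · exact (stronglyMeasurable_condExp.comp_measurable (meas_of_invZ hZ)).aestronglyMeasurable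

lemma kap_real (μ : Measure X) [IsProbabilityMeasure μ] (Z : SA X) {B : Set X}
    (hB : MeasurableSet B) :
    (fun x => (kap μ Z x).real B) =ᵐ[μ] μ[B.indicator (fun _ => (1 : ℝ)) | Z.1] := by
  have h := condExpKernel_ae_eq_condExp (μ := μ) Z.2 hB
  filter_upwards [h] with x hx
  rw [kap_apply']
  exact hx

lemma kap_inv (μ : Measure X) [IsProbabilityMeasure μ] (T : X ≃ᵐ X) (Z : SA X)
    (hT : MeasurePreserving T μ μ) (hZ : InvZ T Z) :
    ∀ᵐ x ∂μ, kap μ Z (T x) = (kap μ Z x).map T := by
  have h1 : ∀ᵐ x ∂μ, ∀ B ∈ AlgX X, (kap μ Z (T x)).real B = (kap μ Z x).real (T ⁻¹' B) := by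
    rw [ae_ball_iff algX_countable]
    intro B hB
    have hBm := algX_meas hB
    have ha := hT.quasiMeasurePreserving.ae (kap_real μ Z hBm)
    have hb := condExp_comp μ T Z hT hZ (B.indicator (fun _ => (1 : ℝ)))
      ((integrable_const (1 : ℝ)).indicator hBm)
    have hc := kap_real μ Z (T.measurable hBm)
    filter_upwards [ha, hb, hc] with x h1 h2 h3
    rw [h1, h2, h3]
    rfl
  filter_upwards [h1] with x hx
  refine ext_of_generate_finite (AlgX X) algX_gen algX_pi ?_ ?_
  · intro B hB
    rw [Measure.map_apply T.measurable (algX_meas hB)]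
    have := hx B hB
    rw [measureReal_def, measureReal_def,
      ENNReal.toReal_eq_toReal_iff' (measure_ne_top _ _) (measure_ne_top _ _)] at this
    exact this
  · rw [Measure.map_apply T.measurable MeasurableSet.univ, Set.preimage_univ, measure_univ,
      measure_univ]

theorem pf_J3 (_ : T_J1) : T_J3 := by
  intro X _ _ μ _ T Z hT hZ
  have hk := kap_inv μ T Z hT hZ
  refine ⟨⟨(TT T).measurable, ?_⟩, hk⟩
  ext s hs
  rw [Measure.map_apply (TT T).measurable hs]
  unfold JJ
  rw [Measure.compProd_apply ((TT T).measurable hs), Measure.compProd_apply hs]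
  have h1 : ∫⁻ x, kap μ Z x (Prod.mk x ⁻¹' s) ∂μ
      = ∫⁻ x, kap μ Z (T x) (Prod.mk (T x) ⁻¹' s) ∂μ :=
    (hT.lintegral_comp (Kernel.measurable_kernel_prodMk_left hs)).symm
  rw [h1]
  refine lintegral_congr_ae ?_
  filter_upwards [hk] with x hx
  rw [hx, Measure.map_apply T.measurable (measurable_prodMk_left hs)]
  rfl

end Pool.Agent.H91.AG
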