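import Pool.Agent.H64.AG.Defs

/-! # CTI. Images of compact countably tight spaces -/

set_option autoImplicit false

open Topology Cardinal

namespace Pool.Agent.H91.AG

open Pool.Agent.H64.AG Pool.Agent.H64.AK Pool.Agent.H20.SL Pool.Agent.H60.CP

theorem cti : T_CTI := by
  intro X Y _ _ _ _ g hg hs hCT A y hy
  have h1 : y ∈ g '' closure (g ⁻¹' A) := by
    have h2 : IsClosed (g '' closure (g ⁻¹' A)) := hg.isClosedMap _ isClosed_closure
    have h3 : A ⊆ g '' closure (g ⁻¹' A) := by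
      intro a ha
      obtain ⟨x, rfl⟩ := hs a
      exact ⟨x, subset_closure ha, rfl⟩
    exact closure_minimal h3 h2 hy
  obtain ⟨x, hx, rfl⟩ := h1
  obtain ⟨B, hBA, hBc, hxB⟩ := hCT _ x hx
  refine ⟨g '' B, ?_, hBc.image g, image_closure_subset_closure_image hg ⟨x, hxB, rfl⟩⟩
  rintro _ ⟨b, hb, rfl⟩
  exact hBA hb

end Pool.Agent.H91.AG
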