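import Pool.Agent.H64.AG.Defs

/-! # MN2. No almost biorthogonal uncountable subfamily over a countable set -/

set_option autoImplicit false

open Topology Cardinal

namespace Pool.Agent.H91.AG

open Pool.Agent.H64.AG Pool.Agent.H64.AK Pool.Agent.H20.SL Pool.Agent.H60.CP

/-- the promises over the countable set `D` -/
private abbrev Pr {X : Type} (D : Set X) : Type := Finset ((D × D) × ℚ)

private def pt {X : Type} {D : Set X} (u : (D × D) × ℚ) : X × X := (u.1.1.1, u.1.2.1)

private def Near {X : Type} {D : Set X} (f : X → ℝ) (F : Pr D) (r : ℝ) : Prop :=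
  ∀ u ∈ F, |df f (pt u) - (u.2 : ℝ)| < r

private def Bd {X : Type} {D : Set X} {I : Set Om} (h : Om → X → ℝ) (r : ℝ) :
    I ⊕ Pr D → I ⊕ Pr D → Prop
  | Sum.inl δ, Sum.inr F => Near (h δ.1) F r
  | Sum.inr F, Sum.inl δ => Near (h δ.1) F r
  | Sum.inl _, Sum.inl _ => False
  | Sum.inr _, Sum.inr _ => False

private theorem bd_symm {X : Type} {D : Set X} {I : Set Om} (h : Om → X → ℝ) (r : ℝ)
    (s t : I ⊕ Pr D) (hb : Bd h r s t) : Bd h r t s := by
  cases s <;> cases t <;> exact hb

private theorem bd_fcc {X : Type} {D : Set X} (hD : D.Countable) {I : Set Om} (h : Om → X → ℝ)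
    (r : ℝ) : FCC (Bd (D := D) (I := I) h r) := by
  classical
  intro A p hA hp
  have hcD : Countable D := hD.to_subtype
  have hu : ¬ (Set.univ : Set A).Countable := fun hc => hA (Set.countable_univ_iff.1 hc)
  obtain ⟨F0, hF0⟩ := pig hu (fun b => (p b).toRight)
  have hnt : ∃ b b', b ≠ b' ∧ (p b).toRight = F0 ∧ (p b').toRight = F0 := by
    by_contra hcon
    push Not at hcon
    apply hF0
    apply Set.Subsingleton.countable
    intro b hb b' hb'
    by_contra hne
    exact hcon b b' hne hb.2 hb'.2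
  obtain ⟨b, b', hne, e1, e2⟩ := hnt
  refine ⟨b, b', hne, ?_⟩
  intro s hs t ht hbad
  have e3 : (p b).toRight = (p b').toRight := e1.trans e2.symm
  rcases s with δ | F <;> rcases t with δ' | F'
  · exact hbad
  · have h1 : F' ∈ (p b').toRight := Finset.mem_toRight.2 ht
    rw [← e3] at h1
    exact hp b _ hs _ (Finset.mem_toRight.1 h1) hbad
  · have h1 : F ∈ (p b).toRight := Finset.mem_toRight.2 hs
    rw [e3] at h1
    exact hp b' _ (Finset.mem_toRight.1 h1) _ ht hbad
  · exact hbad

private theorem near_open {X : Type} {D : Set X} (F : Pr D) (r : ℝ) :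
    IsOpen {k : X → ℝ | Near k F r} := by
  have h1 : {k : X → ℝ | Near k F r} = ⋂ u ∈ F, {k : X → ℝ | |df k (pt u) - (u.2 : ℝ)| < r} := by
    ext k
    simp only [Set.mem_setOf_eq, Set.mem_iInter, Near]
  rw [h1]
  refine isOpen_biInter_finset fun u _ => ?_
  refine isOpen_lt ?_ continuous_const
  have h2 : Continuous fun k : X → ℝ => k (pt u).1 - k (pt u).2 :=
    (continuous_apply _).sub (continuous_apply _)
  exact (h2.sub continuous_const).abs

theorem mn2 (hGF : T_GF) (hLAC : T_LAC) (hPOL : T_POL) : T_MN2 := by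
  classical
  intro hMA X _ _ _ L l hS D hD I ε h z hε hI hh hz hbig hsmall
  set R : ℝ := ε / 16 with hR
  have hRpos : 0 < R := by positivity
  have hlc : ∀ ξ, Continuous (l ξ) := fun ξ => hS.cont _ (hS.mem ξ)
  have hhc : ∀ δ, Continuous (h δ) := fun δ => hS.cont _ (hh δ)
  -- the index set of the requirements
  let K : Type := {g : MvPolynomial Om ℚ // ∀ δ ∈ I, |df (ev l g) (z δ)| < 3 * ε / 4}
  have hK : #K ≤ ℵ₁ := by
    refine (mk_subtype_le _).trans ?_
    refine MvPolynomial.cardinalMk_le_max.trans ?_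
    refine max_le (max_le ?_ ?_) ?_
    · have h1 : #ℚ ≤ ℵ₀ := mk_le_aleph0
      exact h1.trans (aleph0_le_aleph 1)
    · exact mk_Om.le
    · exact aleph0_le_aleph 1
  let Q : K → Set (I ⊕ Pr D) := fun k => {s | ∃ F : Pr D, s = Sum.inr F ∧
    Near (ev l k.1) F (R / 2)}
  -- the requirements can be met
  have hmeet : ∀ k, ∀ p : Finset (I ⊕ Pr D), Free (Bd h R) (p : Set (I ⊕ Pr D)) →
      ∃ s ∈ Q k, Free (Bd h R) (insert s (p : Set (I ⊕ Pr D))) := by
    intro k p hp
    have hstep : ∀ δ : I, ∃ u : (D × D) × ℚ, |df (ev l k.1) (pt u) - (u.2 : ℝ)| < R / 2 ∧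
        R ≤ |df (h δ.1) (pt u) - (u.2 : ℝ)| := by
      intro δ
      have h1 := hbig δ.1 δ.2
      have h2 := k.2 δ.1 δ.2
      have h3 : ε / 5 < |df (h δ.1) (z δ.1) - df (ev l k.1) (z δ.1)| := by
        have h4 := abs_sub_abs_le_abs_sub (df (h δ.1) (z δ.1)) (df (ev l k.1) (z δ.1))
        linarith
      have hcont : Continuous fun w : X × X => |df (h δ.1) w - df (ev l k.1) w| :=
        ((df_continuous (hhc δ.1)).sub (df_continuous (ev_continuous hlc k.1))).abs
      have hop : IsOpen {w : X × X | ε / 5 < |df (h δ.1) w - df (ev l k.1) w|} :=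
        isOpen_lt continuous_const hcont
      have hcl : z δ.1 ∈ closure (D ×ˢ D) := by
        rw [closure_prod_eq]
        exact ⟨(hz δ.1).1, (hz δ.1).2⟩
      obtain ⟨w, hw1, hw2⟩ := mem_closure_iff.1 hcl _ hop h3
      obtain ⟨q, hq⟩ := exists_rat_near (df (ev l k.1) w) (half_pos hRpos)
      refine ⟨((⟨w.1, hw2.1⟩, ⟨w.2, hw2.2⟩), q), hq, ?_⟩
      show R ≤ |df (h δ.1) w - (q : ℝ)|
      have h5 : ε / 5 < |df (h δ.1) w - df (ev l k.1) w| := hw1
      have h6 : df (h δ.1) w - df (ev l k.1) w =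
          (df (h δ.1) w - (q : ℝ)) - (df (ev l k.1) w - (q : ℝ)) := by ring
      rw [h6] at h5
      have h7 := abs_sub (df (h δ.1) w - (q : ℝ)) (df (ev l k.1) w - (q : ℝ))
      linarith
    choose u hu1 hu2 using hstep
    refine ⟨Sum.inr (p.toLeft.image u), ⟨_, rfl, ?_⟩, ?_⟩
    · intro v hv
      obtain ⟨δ, -, rfl⟩ := Finset.mem_image.1 hv
      exact hu1 δ
    · have hno : ∀ δ : I, Sum.inl δ ∈ insert (Sum.inr (p.toLeft.image u)) (p : Set (I ⊕ Pr D)) →
          ¬ Near (h δ.1) (p.toLeft.image u) R := by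
        intro δ hδ hnear
        have h1 : Sum.inl δ ∈ p := by
          rcases hδ with h1 | h1
          · exact absurd h1 (by simp)
          · exact h1
        have h2 := hnear (u δ) (Finset.mem_image.2 ⟨δ, Finset.mem_toLeft.2 h1, rfl⟩)
        exact absurd h2 (not_lt.2 (hu2 δ))
      intro s hs t ht hbad
      rcases s with δ | F <;> rcases t with δ' | F'
      · exact hbad
      · rcases ht with ht | ht
        · have e := Sum.inr_injective ht
          subst e
          exact hno δ hs hbad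
        · rcases hs with hs' | hs'
          · exact absurd hs' (by simp)
          · exact hp _ hs' _ ht hbad
      · rcases hs with hs | hs
        · have e := Sum.inr_injective hs
          subst e
          exact hno δ' ht hbad
        · rcases ht with ht' | ht'
          · exact absurd ht' (by simp)
          · exact hp _ hs _ ht' hbad
      · exact hbad
  -- the big set
  have hS0 : ¬ (Set.range (Sum.inl : I → I ⊕ Pr D)).Countable := by
    intro hc
    apply hI
    have h1 := hc.preimage_of_injOn (f := (Sum.inl : I → I ⊕ Pr D)) Sum.inl_injective.injOn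
    rw [Set.preimage_range, Set.countable_univ_iff] at h1
    exact Set.countable_coe_iff.1 h1
  have hS1 : #(Set.range (Sum.inl : I → I ⊕ Pr D)) ≤ ℵ₁ := by
    refine mk_range_le.trans ?_
    exact (mk_subtype_le _).trans mk_Om.le
  obtain ⟨G, hG, hGQ, hGu⟩ := hGF hMA (I ⊕ Pr D) (Bd h R) (bd_symm h R) (bd_fcc hD h R) K Q hK
    hmeet _ hS0 hS1 (by
      rintro s ⟨δ, rfl⟩ hbad
      exact hbad)
  -- the accumulation point
  have hJ : ¬ Countable {δ : I // Sum.inl δ ∈ G} := by
    intro hc
    apply hGu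
    have h1 : G ∩ Set.range (Sum.inl : I → I ⊕ Pr D) ⊆
        Set.range (fun δ : {δ : I // Sum.inl δ ∈ G} => (Sum.inl δ.1 : I ⊕ Pr D)) := by
      rintro s ⟨hs, δ, rfl⟩
      exact ⟨⟨δ, hs⟩, rfl⟩
    exact (Set.countable_range _).mono h1
  obtain ⟨f, hfL, hf⟩ := hLAC X L hS.lind {δ : I // Sum.inl δ ∈ G} (fun j => h j.1.1)
    (fun j => hh _) hJ
  obtain ⟨g, hg⟩ := hPOL X Om l hlc hS.sep f (hS.cont f hfL) (R / 8) (by positivity)
  have hfg : ∀ w : X × X, |df f w - df (ev l g) w| < R / 4 := by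
    intro w
    have h1 := hg w.1
    have h2 := hg w.2
    have h3 : df f w - df (ev l g) w = (f w.1 - ev l g w.1) - (f w.2 - ev l g w.2) := by
      unfold df; ring
    rw [h3]
    have h4 := abs_sub (f w.1 - ev l g w.1) (f w.2 - ev l g w.2)
    linarith
  by_cases hcase : ∀ δ ∈ I, |df (ev l g) (z δ)| < 3 * ε / 4
  · obtain ⟨s, ⟨F, rfl, hF⟩, hsG⟩ := hGQ ⟨g, hcase⟩
    have hfU : f ∈ {k : X → ℝ | Near k F R} := by
      intro v hv
      have h1 := hF v hv
      have h2 := hfg (pt v)
      have h3 : df f (pt v) - (v.2 : ℝ) = (df f (pt v) - df (ev l g) (pt v)) +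
          (df (ev l g) (pt v) - (v.2 : ℝ)) := by ring
      rw [h3]
      have h4 := abs_add_le (df f (pt v) - df (ev l g) (pt v)) (df (ev l g) (pt v) - (v.2 : ℝ))
      have h5 : |df (ev l g) (pt v) - (v.2 : ℝ)| < R / 2 := h1
      linarith
    have h1 := hf _ (near_open F R) hfU
    obtain ⟨j, hj⟩ : ({j : {δ : I // Sum.inl δ ∈ G} | h j.1.1 ∈
        {k : X → ℝ | Near k F R}}).Nonempty := by
      by_contra hcon
      rw [Set.not_nonempty_iff_eq_empty] at hcon
      rw [hcon] at h1
      exact h1 Set.countable_empty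
    exact hG _ j.2 _ hsG hj
  · push Not at hcase
    obtain ⟨δ₀, hδ₀, h0⟩ := hcase
    have hop : IsOpen {k : X → ℝ | ε / 2 < |df k (z δ₀)|} := by
      refine isOpen_lt continuous_const ?_
      have h2 : Continuous fun k : X → ℝ => k (z δ₀).1 - k (z δ₀).2 :=
        (continuous_apply _).sub (continuous_apply _)
      exact h2.abs
    have hfU : f ∈ {k : X → ℝ | ε / 2 < |df k (z δ₀)|} := by
      have h2 := hfg (z δ₀)
      have h3 := abs_sub_abs_le_abs_sub (df (ev l g) (z δ₀)) (df f (z δ₀))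
      rw [abs_sub_comm] at h3
      show ε / 2 < |df f (z δ₀)|
      linarith
    apply hf _ hop hfU
    apply Set.Subsingleton.countable
    have hone : ∀ j : {δ : I // Sum.inl δ ∈ G}, ε / 2 < |df (h j.1.1) (z δ₀)| → j.1.1 = δ₀ := by
      intro j hj
      by_contra hne
      exact absurd hj (not_lt.2 (hsmall j.1.1 j.1.2 δ₀ hδ₀ hne).le)
    intro j hj j' hj'
    apply Subtype.ext
    apply Subtype.ext
    rw [hone j hj, hone j' hj']

end Pool.Agent.H91.AG
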